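import Mathlib

/-!
# A tridiagonal pair with two essentially different invariant symmetric bilinear forms
-/

set_option autoImplicit false

namespace Pool.Agent.Results.MP_8ac8bf_al.FormNotUnique

open Module

section defs

variable {K : Type*} [Field K] {V : Type*} [AddCommGroup V] [Module K V]

/-- `A` is diagonalizable and `θ_0, …, θ_d` is an ordering of its eigenvalues such that `B` maps
every eigenspace `V_i` of `A` into `V_{i-1} + V_i + V_{i+1}`. -/
def Half (A B : End K V) : Prop :=
  (⨆ μ : K, End.eigenspace A μ = ⊤) ∧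
  ∃ (d : ℕ) (θ : Fin (d + 1) → K), Function.Injective θ ∧
    (∀ μ : K, End.HasEigenvalue A μ ↔ ∃ i, θ i = μ) ∧
    ∀ i : Fin (d + 1), ∀ v ∈ End.eigenspace A (θ i),
      B v ∈ ⨆ j ∈ {j : Fin (d + 1) | (j : ℕ) ≤ i + 1 ∧ (i : ℕ) ≤ j + 1}, End.eigenspace A (θ j)

/-- Tridiagonal pairs. -/
structure IsTDPair (A As : End K V) : Prop where
  left : Half A As
  right : Half As A
  irred : ∀ W : Submodule K V, (∀ v ∈ W, A v ∈ W) → (∀ v ∈ W, As v ∈ W) → W = ⊥ ∨ W = ⊤

/-- Symmetric `(A, A^*)`-invariant bilinear forms. -/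
structure IsInvariantForm (A As : End K V) (B : V →ₗ[K] V →ₗ[K] K) : Prop where
  symm : ∀ u v, B u v = B v u
  inv : ∀ u v, B (A u) v = B u (A v)
  invs : ∀ u v, B (As u) v = B u (As v)

/-- (a) There is a nonzero invariant symmetric form. -/
def PartA (A As : End K V) : Prop := ∃ B, B ≠ 0 ∧ IsInvariantForm A As B

/-- (b) Every nonzero invariant symmetric form is nondegenerate. -/
def PartB (A As : End K V) : Prop :=
  ∀ B, B ≠ 0 → IsInvariantForm A As B → ∀ u, (∀ v, B u v = 0) → u = 0

/-- (c) Any two nonzero invariant symmetric forms differ by a nonzero scalar. -/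
def PartC (A As : End K V) : Prop :=
  ∀ B B', B ≠ 0 → B' ≠ 0 → IsInvariantForm A As B → IsInvariantForm A As B' →
    ∃ c : K, c ≠ 0 ∧ B' = c • B

end defs

/-- `Q1` over the field `K`. -/
def Question (K : Type) [Field K] : Prop :=
  ∀ (V : Type) [AddCommGroup V] [Module K V] [FiniteDimensional K V] [Nontrivial V]
    (A As : End K V), IsTDPair A As → PartA A As ∧ PartB A As ∧ PartC A As

section involution

variable {K : Type*} [Field K] {V : Type*} [AddCommGroup V] [Module K V]

theorem half_of_involution (h2 : (2 : K) ≠ 0) {T B : End K V} (hT : ∀ v, T (T v) = v)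
    (h1 : ∃ v, v ≠ 0 ∧ T v = v) (h3 : ∃ v, v ≠ 0 ∧ T v = -v) : Half T B := by
  have hsplit : ∀ v : V, v ∈ End.eigenspace T 1 ⊔ End.eigenspace T (-1) := by
    intro v
    have e : v = (2⁻¹ : K) • (v + T v) + (2⁻¹ : K) • (v - T v) := by
      rw [← smul_add, add_add_sub_cancel, ← two_smul K v, smul_smul, inv_mul_cancel₀ h2, one_smul]
    rw [e]
    refine Submodule.add_mem_sup ?_ ?_
    · refine Submodule.smul_mem _ _ ?_
      rw [End.mem_eigenspace_iff, map_add, hT, one_smul, add_comm]
    · refine Submodule.smul_mem _ _ ?_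
      rw [End.mem_eigenspace_iff, map_sub, hT, neg_smul, one_smul, neg_sub]
  have hne : (1 : K) ≠ -1 := by
    intro h
    apply h2
    have : (1 : K) + 1 = 0 := by
      nth_rewrite 2 [h]; ring
    rw [← one_add_one_eq_two]; exact this
  refine ⟨?_, 1, ![1, -1], ?_, ?_, ?_⟩
  · rw [eq_top_iff]
    intro v _
    exact (sup_le (le_iSup (fun μ : K => End.eigenspace T μ) 1)
      (le_iSup (fun μ : K => End.eigenspace T μ) (-1))) (hsplit v)
  · intro i j hij
    fin_cases i <;> fin_cases j
    · rfl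
    · exact absurd hij hne
    · exact absurd hij.symm hne
    · rfl
  · intro μ
    constructor
    · intro hμ
      obtain ⟨v, hv⟩ := hμ.exists_hasEigenvector
      have h4 : T v = μ • v := hv.apply_eq_smul
      have h5 : (μ * μ) • v = v := by
        have := hT v
        rw [h4, map_smul, h4, smul_smul] at this
        exact this
      have h6 : (μ * μ - 1) • v = 0 := by rw [sub_smul, h5, one_smul, sub_self]
      have h7 : μ * μ - 1 = 0 := (smul_eq_zero.mp h6).resolve_right hv.2
      have h8 : (μ - 1) * (μ + 1) = 0 := by rw [← h7]; ring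
      rcases mul_eq_zero.mp h8 with h9 | h9
      · exact ⟨0, (sub_eq_zero.mp h9).symm⟩
      · exact ⟨1, (eq_neg_of_add_eq_zero_left h9).symm⟩
    · rintro ⟨i, rfl⟩
      fin_cases i
      · obtain ⟨v, hv, hTv⟩ := h1
        refine End.hasEigenvalue_of_hasEigenvector (x := v) ⟨?_, hv⟩
        rw [End.mem_eigenspace_iff]
        change T v = (1 : K) • v
        rw [hTv, one_smul]
      · obtain ⟨v, hv, hTv⟩ := h3
        refine End.hasEigenvalue_of_hasEigenvector (x := v) ⟨?_, hv⟩
        rw [End.mem_eigenspace_iff]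
        change T v = (-1 : K) • v
        rw [hTv, neg_smul, one_smul]
  · intro i v _
    have hle : End.eigenspace T 1 ⊔ End.eigenspace T (-1) ≤
        ⨆ j ∈ {j : Fin 2 | (j : ℕ) ≤ i + 1 ∧ (i : ℕ) ≤ j + 1},
          End.eigenspace T ((![1, -1] : Fin 2 → K) j) := by
      refine sup_le ?_ ?_
      · exact le_iSup₂_of_le (0 : Fin 2) (by constructor <;> fin_cases i <;> simp) le_rfl
      · exact le_iSup₂_of_le (1 : Fin 2) (by constructor <;> fin_cases i <;> simp) le_rfl
    exact hle (hsplit (B v))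

end involution

section example_

variable (K : Type*) [Field K]

/-- The map `A`. -/
def A₀ : End K (Fin 4 → K) :=
  { toFun := fun x => ![x 0, x 1, -x 2, -x 3]
    map_add' := by
      intro x y; funext i; fin_cases i <;> simp <;> ring
    map_smul' := by
      intro c x; funext i; fin_cases i <;> simp }

/-- The map `A^*`. -/
def As₀ : End K (Fin 4 → K) :=
  { toFun := fun x => ![-x 1 + 2 * x 2, x 0 + 2 * x 3, x 0 + x 3, x 1 - x 2]
    map_add' := by
      intro x y; funext i; fin_cases i <;> simp <;> ring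
    map_smul' := by
      intro c x; funext i; fin_cases i <;> simp <;> ring }

/-- The first form. -/
def B₁ : (Fin 4 → K) →ₗ[K] (Fin 4 → K) →ₗ[K] K :=
  LinearMap.mk₂ K (fun x y => x 0 * y 0 - x 1 * y 1 + 2 * (x 2 * y 2) - 2 * (x 3 * y 3))
    (by intro x x' y; simp; ring) (by intro c x y; simp; ring)
    (by intro x y y'; simp; ring) (by intro c x y; simp; ring)

/-- The second form. -/
def B₂ : (Fin 4 → K) →ₗ[K] (Fin 4 → K) →ₗ[K] K :=
  LinearMap.mk₂ K (fun x y => x 0 * y 1 + x 1 * y 0 + 2 * (x 2 * y 3) + 2 * (x 3 * y 2))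
    (by intro x x' y; simp; ring) (by intro c x y; simp; ring)
    (by intro x y y'; simp; ring) (by intro c x y; simp; ring)

theorem B₁_form : IsInvariantForm (A₀ K) (As₀ K) (B₁ K) where
  symm := by intro u v; simp [B₁]; ring
  inv := by intro u v; simp [B₁, A₀]
  invs := by intro u v; simp [B₁, As₀]; ring

theorem B₂_form : IsInvariantForm (A₀ K) (As₀ K) (B₂ K) where
  symm := by intro u v; simp [B₂]; ring
  inv := by intro u v; simp [B₂, A₀]
  invs := by intro u v; simp [B₂, As₀]; ring

theorem tdpair (hK : ∀ x : K, x * x ≠ -1) : IsTDPair (A₀ K) (As₀ K) := by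
  have h2 : (2 : K) ≠ 0 := by
    intro h
    apply hK 1
    have : (1 : K) + 1 = 0 := by rw [one_add_one_eq_two]; exact h
    rw [mul_one]; exact eq_neg_of_add_eq_zero_left this
  have hsum : ∀ a b : K, a * a + b * b = 0 → a = 0 := by
    intro a b hab
    by_contra ha
    apply hK (b / a)
    have : b * b = -(a * a) := eq_neg_of_add_eq_zero_right hab
    rw [div_mul_div_comm, this, neg_div, div_self (mul_ne_zero ha ha)]
  refine ⟨half_of_involution h2 ?_ ?_ ?_, half_of_involution h2 ?_ ?_ ?_, ?_⟩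
  · intro v; funext i; fin_cases i <;> simp [A₀]
  · refine ⟨![1, 0, 0, 0], ?_, ?_⟩
    · intro h; simpa using congrFun h 0
    · funext i; fin_cases i <;> simp [A₀]
  · refine ⟨![0, 0, 1, 0], ?_, ?_⟩
    · intro h; simpa using congrFun h 2
    · funext i; fin_cases i <;> simp [A₀]
  · intro v; funext i; fin_cases i <;> simp [As₀] <;> ring
  · refine ⟨![1, 1, 1, 0], ?_, ?_⟩
    · intro h; simpa using congrFun h 0
    · funext i; fin_cases i <;> simp [As₀]; norm_num
  · refine ⟨![1, -1, -1, 0], ?_, ?_⟩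
    · intro h; simpa using congrFun h 0
    · funext i; fin_cases i <;> simp [As₀]; norm_num
  · intro W h1 h3
    by_cases hW : W = ⊥
    · exact Or.inl hW
    right
    -- splitting a vector of `W`
    have hs : ∀ x ∈ W, (![x 0, x 1, 0, 0] : Fin 4 → K) ∈ W ∧ (![0, 0, x 2, x 3] : Fin 4 → K) ∈ W := by
      intro x hx
      have half : ∀ c : K, c = 2⁻¹ * (c + c) := by
        intro c
        rw [← two_mul, ← mul_assoc, inv_mul_cancel₀ h2, one_mul]
      have e1 : (![x 0, x 1, 0, 0] : Fin 4 → K) = (2⁻¹ : K) • (x + A₀ K x) := by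
        funext i
        fin_cases i
        · exact half (x 0)
        · exact half (x 1)
        · change 0 = 2⁻¹ * (x 2 + -x 2); ring
        · change 0 = 2⁻¹ * (x 3 + -x 3); ring
      have e2 : (![0, 0, x 2, x 3] : Fin 4 → K) = (2⁻¹ : K) • (x - A₀ K x) := by
        funext i
        fin_cases i
        · change 0 = 2⁻¹ * (x 0 - x 0); ring
        · change 0 = 2⁻¹ * (x 1 - x 1); ring
        · change x 2 = 2⁻¹ * (x 2 - -x 2); rw [sub_neg_eq_add]; exact half (x 2)
        · change x 3 = 2⁻¹ * (x 3 - -x 3); rw [sub_neg_eq_add]; exact half (x 3)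
      rw [e1, e2]
      exact ⟨W.smul_mem _ (W.add_mem hx (h1 x hx)), W.smul_mem _ (W.sub_mem hx (h1 x hx))⟩
    -- a nonzero vector in the upper part
    have hu : ∃ a b : K, (a ≠ 0 ∨ b ≠ 0) ∧ (![a, b, 0, 0] : Fin 4 → K) ∈ W := by
      obtain ⟨x, hx, hx0⟩ := Submodule.exists_mem_ne_zero_of_ne_bot hW
      by_cases h4 : x 0 ≠ 0 ∨ x 1 ≠ 0
      · exact ⟨x 0, x 1, h4, (hs x hx).1⟩
      · push Not at h4
        have h5 : x 2 ≠ 0 ∨ x 3 ≠ 0 := by
          by_contra h6
          push Not at h6
          apply hx0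
          funext i
          fin_cases i
          exacts [h4.1, h4.2, h6.1, h6.2]
        have h7 := (hs _ (h3 _ (hs x hx).2)).1
        refine ⟨_, _, ?_, h7⟩
        simp [As₀, h2, h5]
    obtain ⟨a, b, hab, hmem⟩ := hu
    have hn : a * a + b * b ≠ 0 := by
      intro h
      rcases hab with ha | hb
      · exact ha (hsum a b h)
      · exact hb (hsum b a (by rw [add_comm]; exact h))
    have hJ : (![-b, a, 0, 0] : Fin 4 → K) ∈ W := by
      have := (hs _ (h3 _ hmem)).1
      simpa [As₀] using this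
    have he0 : (![1, 0, 0, 0] : Fin 4 → K) ∈ W := by
      have e : (![1, 0, 0, 0] : Fin 4 → K) =
          (a * a + b * b)⁻¹ • (a • ![a, b, 0, 0] - b • ![-b, a, 0, 0]) := by
        funext i
        fin_cases i <;> simp
        · rw [inv_mul_cancel₀ hn]
        · right; ring
      rw [e]
      exact W.smul_mem _ (W.sub_mem (W.smul_mem _ hmem) (W.smul_mem _ hJ))
    have he1 : (![0, 1, 0, 0] : Fin 4 → K) ∈ W := by
      have e : (![0, 1, 0, 0] : Fin 4 → K) =
          (a * a + b * b)⁻¹ • (b • ![a, b, 0, 0] + a • ![-b, a, 0, 0]) := by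
        funext i
        fin_cases i <;> simp
        · right; ring
        · rw [add_comm (b * b), inv_mul_cancel₀ hn]
      rw [e]
      exact W.smul_mem _ (W.add_mem (W.smul_mem _ hmem) (W.smul_mem _ hJ))
    have he2 : (![0, 0, 1, 0] : Fin 4 → K) ∈ W := by
      have := (hs _ (h3 _ he0)).2
      simpa [As₀] using this
    have he3 : (![0, 0, 0, 1] : Fin 4 → K) ∈ W := by
      have := (hs _ (h3 _ he1)).2
      simpa [As₀] using this
    rw [eq_top_iff]
    intro x _
    have e : x = x 0 • ![1, 0, 0, 0] + x 1 • ![0, 1, 0, 0] + x 2 • ![0, 0, 1, 0] +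
        x 3 • ![0, 0, 0, 1] := by
      funext i
      fin_cases i <;> simp
    rw [e]
    exact W.add_mem (W.add_mem (W.add_mem (W.smul_mem _ he0) (W.smul_mem _ he1))
      (W.smul_mem _ he2)) (W.smul_mem _ he3)

end example_

/-- **`Q1` is false**: part (c) fails over every field in which `-1` is not a square, in
particular over `ℝ`. -/
theorem result : (∀ (K : Type) [Field K], (∀ x : K, x * x ≠ -1) → ¬ Question K) ∧
    ¬ Question ℝ := by
  have main : ∀ (K : Type) [Field K], (∀ x : K, x * x ≠ -1) → ¬ Question K := by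
    intro K _ hK h
    obtain ⟨-, -, hc⟩ := h (Fin 4 → K) (A₀ K) (As₀ K) (tdpair K hK)
    have n1 : B₁ K ≠ 0 := by
      intro h0
      have := LinearMap.congr_fun (LinearMap.congr_fun h0 ![1, 0, 0, 0]) ![1, 0, 0, 0]
      simp [B₁] at this
    have n2 : B₂ K ≠ 0 := by
      intro h0
      have := LinearMap.congr_fun (LinearMap.congr_fun h0 ![1, 0, 0, 0]) ![0, 1, 0, 0]
      simp [B₂] at this
    obtain ⟨c, -, hc⟩ := hc _ _ n1 n2 (B₁_form K) (B₂_form K)
    have := LinearMap.congr_fun (LinearMap.congr_fun hc ![1, 0, 0, 0]) ![0, 1, 0, 0]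
    simp [B₁, B₂] at this
  refine ⟨main, main ℝ fun x h => ?_⟩
  nlinarith [mul_self_nonneg x]

end Pool.Agent.Results.MP_8ac8bf_al.FormNotUnique
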